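import Pool.Agent.Run7.h432.LV.Stm

/-!
# Project LV (helper432), piece VX
-/

set_option autoImplicit false

namespace Pool.Agent.Run7.h136.LV

open Run7.h432.LV Function

universe u

theorem ev_append {U : Type u} [Ring U] {ι : Type} (w w' : List (U ⊕ ι)) (x : ι → U) :
    ev (w ++ w') x = ev w x * ev w' x := by
  unfold ev
  rw [List.map_append, List.prod_append]

theorem ev_map {U : Type u} [Ring U] {ι κ : Type} (w : List (U ⊕ κ)) (f : κ → ι) (x : ι → U) :
    ev (w.map (Sum.map id f)) x = ev w (x ∘ f) := by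
  unfold ev
  rw [List.map_map, Sum.elim_comp_map]
  rfl

theorem fm_map {U : Type u} {ι κ : Type} (w : List (U ⊕ κ)) (f : κ → ι) :
    (w.map (Sum.map id f)).filterMap Sum.getRight? = (w.filterMap Sum.getRight?).map f := by
  induction w with
  | nil => rfl
  | cons a w ih =>
    rcases a with a | a
    · simpa [List.filterMap_cons] using ih
    · simpa [List.filterMap_cons] using ih

/-- the product word -/
def big {U : Type u} {m : ℕ} (w w' : List (U ⊕ Fin m)) (c : U) (σ τ : Equiv.Perm (Fin m)) :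
    List (U ⊕ ((Fin m ⊕ Fin m) ⊕ Unit)) :=
  w.map (Sum.map id (fun i => Sum.inl (Sum.inl (σ i)))) ++ ([Sum.inl c] ++
    (w'.map (Sum.map id (fun i => Sum.inl (Sum.inr (τ i)))) ++ [Sum.inr (Sum.inr ())]))

theorem big_once {U : Type u} {m : ℕ} {w w' : List (U ⊕ Fin m)} (hw : Once w) (hw' : Once w')
    (c : U) (σ τ : Equiv.Perm (Fin m)) : Once (big w w' c σ τ) := by
  constructor
  · unfold big
    rw [List.filterMap_append, List.filterMap_append, List.filterMap_append, fm_map, fm_map]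
    have e1 : List.filterMap (Sum.getRight? (α := U) (β := (Fin m ⊕ Fin m) ⊕ Unit)) [Sum.inl c] =
        [] := rfl
    have e2 : List.filterMap (Sum.getRight? (α := U) (β := (Fin m ⊕ Fin m) ⊕ Unit))
        [Sum.inr (Sum.inr ())] = [Sum.inr ()] := rfl
    rw [e1, e2, List.nil_append]
    refine List.Nodup.append ?_ (List.Nodup.append ?_ (by simp) ?_) ?_
    · exact hw.1.map (fun i j h => σ.injective (Sum.inl.inj (Sum.inl.inj h)))
    · exact hw'.1.map (fun i j h => τ.injective (Sum.inr.inj (Sum.inl.inj h)))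
    · intro z hz hz'
      rw [List.mem_map] at hz
      obtain ⟨i, _, rfl⟩ := hz
      simp at hz'
    · intro z hz hz'
      rw [List.mem_map] at hz
      obtain ⟨i, _, rfl⟩ := hz
      rw [List.mem_append, List.mem_map] at hz'
      rcases hz' with ⟨j, _, h⟩ | h
      · simp at h
      · simp at h
  · unfold big
    rintro ((j | j) | j)
    · refine List.mem_append_left _ (List.mem_map.2 ⟨Sum.inr (σ.symm j), hw.2 _, ?_⟩)
      simp
    · refine List.mem_append_right _ (List.mem_append_right _ (List.mem_append_left _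
        (List.mem_map.2 ⟨Sum.inr (τ.symm j), hw'.2 _, ?_⟩)))
      simp
    · refine List.mem_append_right _ (List.mem_append_right _ (List.mem_append_right _ ?_))
      simp

theorem big_ev {U : Type u} [Ring U] {m : ℕ} (w w' : List (U ⊕ Fin m)) (c : U)
    (σ τ : Equiv.Perm (Fin m)) (x : (Fin m ⊕ Fin m) ⊕ Unit → U) :
    ev (big w w' c σ τ) x = ev w ((fun i => x (Sum.inl (Sum.inl i))) ∘ σ) * c *
      ev w' ((fun i => x (Sum.inl (Sum.inr i))) ∘ τ) * x (Sum.inr ()) := by
  unfold big
  rw [ev_append, ev_append, ev_append, ev_map, ev_map]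
  have e1 : ev [Sum.inl c] x = c := by simp [ev]
  have e2 : ev [Sum.inr (Sum.inr ())] x = x (Sum.inr ()) := by simp [ev]
  rw [e1, e2, ← mul_assoc, ← mul_assoc]
  rfl

theorem alt_swap {U : Type u} [Ring U] {m : ℕ} (w : List (U ⊕ Fin m)) (y : Fin m → U)
    {i j : Fin m} (hij : i ≠ j) : alt w (y ∘ Equiv.swap i j) = -alt w y := by
  unfold alt
  rw [← Equiv.sum_comp (Equiv.mulLeft (Equiv.swap i j))
    (fun σ : Equiv.Perm (Fin m) => (Equiv.Perm.sign σ : ℤ) • ev w (y ∘ σ)),
    ← Finset.sum_neg_distrib]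
  refine Finset.sum_congr rfl fun σ _ => ?_
  have e1 : (Equiv.mulLeft (Equiv.swap i j)) σ = Equiv.swap i j * σ := rfl
  rw [e1, Equiv.Perm.sign_mul, Equiv.Perm.sign_swap hij]
  have e2 : (y ∘ Equiv.swap i j) ∘ σ = y ∘ (Equiv.swap i j * σ : Equiv.Perm (Fin m)) := rfl
  rw [e2]
  push_cast
  rw [neg_mul, one_mul, neg_smul, neg_neg]

theorem t_VX : S_VX.{u} := by
  intro U _ m w w' hw hw' c
  refine ⟨?_, ?_, ?_⟩
  · have e : (fun x : (Fin m ⊕ Fin m) ⊕ Unit → U =>
      alt w (fun i => x (Sum.inl (Sum.inl i))) * c * alt w' (fun i => x (Sum.inl (Sum.inr i))) *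
        x (Sum.inr ())) = ∑ σ : Equiv.Perm (Fin m), ∑ τ : Equiv.Perm (Fin m),
          (Equiv.Perm.sign σ : ℤ) • (Equiv.Perm.sign τ : ℤ) • ev (big w w' c σ τ) := by
      funext x
      simp only [Finset.sum_apply, Pi.smul_apply, big_ev]
      unfold alt
      rw [Finset.sum_mul, Finset.sum_mul, Finset.sum_mul]
      refine Finset.sum_congr rfl fun σ _ => ?_
      rw [Finset.mul_sum, Finset.sum_mul]
      refine Finset.sum_congr rfl fun τ _ => ?_
      simp only [smul_mul_assoc, mul_smul_comm]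
      rw [smul_comm]
    rw [e]
    refine AddSubgroup.sum_mem _ fun σ _ => AddSubgroup.sum_mem _ fun τ _ => ?_
    refine AddSubgroup.zsmul_mem _ (AddSubgroup.zsmul_mem _ ?_ _) _
    exact AddSubgroup.subset_closure ⟨big w w' c σ τ, big_once hw hw' c σ τ, rfl⟩
  · intro i j hij x
    have h1 : (fun k => (x ∘ Equiv.swap (Sum.inl (Sum.inl i) : (Fin m ⊕ Fin m) ⊕ Unit)
        (Sum.inl (Sum.inl j))) (Sum.inl (Sum.inl k))) =
        (fun k => x (Sum.inl (Sum.inl k))) ∘ Equiv.swap i j := by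
      funext k
      have h := (Sum.inl_injective.comp Sum.inl_injective :
        Injective (fun k : Fin m => (Sum.inl (Sum.inl k) : (Fin m ⊕ Fin m) ⊕ Unit))).swap_apply i j k
      simp only [Function.comp_apply] at h ⊢
      rw [h]
    have h2 : (fun k => (x ∘ Equiv.swap (Sum.inl (Sum.inl i) : (Fin m ⊕ Fin m) ⊕ Unit)
        (Sum.inl (Sum.inl j))) (Sum.inl (Sum.inr k))) = fun k => x (Sum.inl (Sum.inr k)) := by
      funext k
      rw [Function.comp_apply, Equiv.swap_apply_of_ne_of_ne (by simp) (by simp)]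
    have h3 : (x ∘ Equiv.swap (Sum.inl (Sum.inl i) : (Fin m ⊕ Fin m) ⊕ Unit)
        (Sum.inl (Sum.inl j))) (Sum.inr ()) = x (Sum.inr ()) := by
      rw [Function.comp_apply, Equiv.swap_apply_of_ne_of_ne (by simp) (by simp)]
    simp only [h1, h2, h3]
    rw [alt_swap w _ hij]
    simp only [neg_mul]
  · intro i j hij x
    have h1 : (fun k => (x ∘ Equiv.swap (Sum.inl (Sum.inr i) : (Fin m ⊕ Fin m) ⊕ Unit)
        (Sum.inl (Sum.inr j))) (Sum.inl (Sum.inr k))) =
        (fun k => x (Sum.inl (Sum.inr k))) ∘ Equiv.swap i j := by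
      funext k
      have h := (Sum.inl_injective.comp Sum.inr_injective :
        Injective (fun k : Fin m => (Sum.inl (Sum.inr k) : (Fin m ⊕ Fin m) ⊕ Unit))).swap_apply i j k
      simp only [Function.comp_apply] at h ⊢
      rw [h]
    have h2 : (fun k => (x ∘ Equiv.swap (Sum.inl (Sum.inr i) : (Fin m ⊕ Fin m) ⊕ Unit)
        (Sum.inl (Sum.inr j))) (Sum.inl (Sum.inl k))) = fun k => x (Sum.inl (Sum.inl k)) := by
      funext k
      rw [Function.comp_apply, Equiv.swap_apply_of_ne_of_ne (by simp) (by simp)]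
    have h3 : (x ∘ Equiv.swap (Sum.inl (Sum.inr i) : (Fin m ⊕ Fin m) ⊕ Unit)
        (Sum.inl (Sum.inr j))) (Sum.inr ()) = x (Sum.inr ()) := by
      rw [Function.comp_apply, Equiv.swap_apply_of_ne_of_ne (by simp) (by simp)]
    simp only [h1, h2, h3]
    rw [alt_swap w' _ hij]
    simp only [mul_neg, neg_mul]

end Pool.Agent.Run7.h136.LV
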