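import Pool.Agent.Run7.h432.LV.Stm3
import Pool.Agent.Run7.h136.LV.VX

/-!
# Project LV (helper432), job EX: exchange of two blocks
-/

set_option autoImplicit false

namespace Pool.Agent.Run7.h136.LV

open Run7.h432.LV Function

universe u

/-- the product word -/
def big2 {U : Type u} {m : ℕ} (w w' : List (U ⊕ Fin m)) (c : U) : List (U ⊕ (Fin m ⊕ Fin m)) :=
  w.map (Sum.map id Sum.inl) ++ ([Sum.inl c] ++ w'.map (Sum.map id Sum.inr))

theorem big2_once {U : Type u} {m : ℕ} {w w' : List (U ⊕ Fin m)} (hw : Once w) (hw' : Once w')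
    (c : U) : Once (big2 w w' c) := by
  constructor
  · unfold big2
    rw [List.filterMap_append, List.filterMap_append, fm_map, fm_map]
    have e1 : List.filterMap (Sum.getRight? (α := U) (β := (Fin m ⊕ Fin m))) [Sum.inl c] =
        [] := rfl
    rw [e1, List.nil_append]
    refine List.Nodup.append ?_ ?_ ?_
    · exact hw.1.map Sum.inl_injective
    · exact hw'.1.map Sum.inr_injective
    · intro z hz hz'
      rw [List.mem_map] at hz hz'
      obtain ⟨i, _, rfl⟩ := hz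
      obtain ⟨j, _, h⟩ := hz'
      simp at h
  · unfold big2
    rintro (j | j)
    · exact List.mem_append_left _ (List.mem_map.2 ⟨Sum.inr j, hw.2 _, rfl⟩)
    · exact List.mem_append_right _ (List.mem_append_right _
        (List.mem_map.2 ⟨Sum.inr j, hw'.2 _, rfl⟩))

theorem big2_ev {U : Type u} [Ring U] {m : ℕ} (w w' : List (U ⊕ Fin m)) (c : U)
    (v : Fin m ⊕ Fin m → U) :
    ev (big2 w w' c) v = ev w (v ∘ Sum.inl) * c * ev w' (v ∘ Sum.inr) := by
  unfold big2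
  rw [ev_append, ev_append, ev_map, ev_map]
  have e1 : ev [Sum.inl c] v = c := by simp [ev]
  rw [e1, ← mul_assoc]

/-- does `σ` map `inr l` into the first block -/
def chi {m : ℕ} (σ : Equiv.Perm (Fin m ⊕ Fin m)) (l : Fin m) : ℤ :=
  if (σ (Sum.inr l)).isLeft then 1 else 0

/-- the sum over the permutations which preserve the blocks -/
def BB {U : Type u} [Ring U] {m : ℕ} (W : List (U ⊕ (Fin m ⊕ Fin m))) (v : Fin m ⊕ Fin m → U) :
    U :=
  ∑ σ : Equiv.Perm (Fin m ⊕ Fin m), (∏ l, (1 - chi σ l)) •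
    ((Equiv.Perm.sign σ : ℤ) • ev W (v ∘ σ))

theorem sign_via {α β : Type} [Fintype α] [DecidableEq α] [Fintype β] [DecidableEq β]
    (ρ : Equiv.Perm α) (j : α ↪ β) :
    Equiv.Perm.sign (Equiv.Perm.viaEmbedding ρ j) = Equiv.Perm.sign ρ := by
  classical
  unfold Equiv.Perm.viaEmbedding
  convert Equiv.Perm.sign_extendDomain ρ (Equiv.ofInjective j.1 j.2)

theorem incl {U : Type u} [Ring U] (hALF : S_ALF.{u}) (hCOS : S_COS.{u}) (I : Ideal U) {m : ℕ}
    (hcap : Cap I (m + 1)) (W : List (U ⊕ (Fin m ⊕ Fin m))) (hW : Once W)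
    (v : Fin m ⊕ Fin m → U) (hv : ∀ i, v i ∈ I) :
    BB W v = ∑ σ : Equiv.Perm (Fin m ⊕ Fin m), (∏ l, (- chi σ l)) •
      ((Equiv.Perm.sign σ : ℤ) • ev W (v ∘ σ)) := by
  classical
  unfold BB
  have e1 : ∀ σ : Equiv.Perm (Fin m ⊕ Fin m), (∏ l, (1 - chi σ l)) =
      ∑ t ∈ (Finset.univ : Finset (Fin m)).powerset, ∏ l ∈ t, (- chi σ l) := by
    intro σ
    have := Finset.prod_add (fun l => - chi σ l) (fun _ => (1 : ℤ)) (Finset.univ : Finset (Fin m))
    simp only [Finset.prod_const_one, mul_one] at this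
    rw [← this]
    exact Finset.prod_congr rfl fun l _ => by ring
  simp_rw [e1, Finset.sum_smul]
  rw [Finset.sum_comm]
  rw [Finset.sum_eq_single_of_mem Finset.univ (Finset.mem_powerset.2 (Finset.subset_univ _))]
  intro t _ ht
  obtain ⟨l₀, hl₀⟩ : ∃ l₀, l₀ ∉ t := by
    by_contra h
    push Not at h
    exact ht (Finset.eq_univ_iff_forall.2 h)
  obtain ⟨j, hj0, hj1⟩ : ∃ j : Fin (m + 1) ↪ Fin m ⊕ Fin m, j 0 = Sum.inr l₀ ∧
      ∀ i : Fin m, j i.succ = Sum.inl i := by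
    refine ⟨⟨Fin.cons (Sum.inr l₀) Sum.inl, ?_⟩, rfl, fun i => rfl⟩
    rw [Fin.cons_injective_iff]
    exact ⟨by simp, Sum.inl_injective⟩
  refine hCOS U (Equiv.Perm (Fin m ⊕ Fin m)) (Equiv.Perm (Fin (m + 1)))
    (Equiv.Perm.viaEmbeddingHom j) (Equiv.Perm.viaEmbeddingHom_injective j) _ ?_
  intro σ
  have hchi : ∀ ρ : Equiv.Perm (Fin (m + 1)), ∀ l ∈ t,
      chi (σ * Equiv.Perm.viaEmbeddingHom j ρ) l = chi σ l := by
    intro ρ l hl
    unfold chi
    have h1 : Equiv.Perm.viaEmbeddingHom j ρ (Sum.inr l) = Sum.inr l := by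
      rw [Equiv.Perm.viaEmbeddingHom_apply]
      apply Equiv.Perm.viaEmbedding_apply_of_notMem
      rintro ⟨i, hi⟩
      induction i using Fin.cases with
      | zero =>
        rw [hj0] at hi
        rw [Sum.inr.inj hi] at hl₀
        exact hl₀ hl
      | succ i =>
        rw [hj1] at hi
        simp at hi
    rw [Equiv.Perm.mul_apply, h1]
  have e2 : ∀ ρ : Equiv.Perm (Fin (m + 1)),
      (∏ l ∈ t, (- chi (σ * Equiv.Perm.viaEmbeddingHom j ρ) l)) •
        ((Equiv.Perm.sign (σ * Equiv.Perm.viaEmbeddingHom j ρ) : ℤ) •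
          ev W (v ∘ (σ * Equiv.Perm.viaEmbeddingHom j ρ : Equiv.Perm (Fin m ⊕ Fin m)))) =
      ((∏ l ∈ t, (- chi σ l)) * (Equiv.Perm.sign σ : ℤ)) •
        ((Equiv.Perm.sign ρ : ℤ) • ev W ((v ∘ σ) ∘ Equiv.Perm.viaEmbedding ρ j)) := by
    intro ρ
    rw [Finset.prod_congr rfl (fun l hl => by rw [hchi ρ l hl])]
    rw [Equiv.Perm.sign_mul, Equiv.Perm.viaEmbeddingHom_apply, sign_via]
    push_cast
    rw [mul_smul, mul_smul]
    rfl
  rw [Finset.sum_congr rfl fun ρ _ => e2 ρ, ← Finset.smul_sum]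
  rw [hALF U I (m + 1) hcap (Fin m ⊕ Fin m) (ev W) (AddSubgroup.subset_closure ⟨W, hW, rfl⟩) j
    (v ∘ σ) (fun i => hv _), smul_zero]

theorem sign_comm (m : ℕ) :
    Equiv.Perm.sign (Equiv.sumComm (Fin m) (Fin m) : Equiv.Perm (Fin m ⊕ Fin m)) = (-1) ^ m := by
  have h1 : Equiv.Perm.sign (Equiv.prodCongrLeft (fun _ : Fin m => Equiv.swap false true)) =
      (-1) ^ m := by
    rw [Equiv.Perm.sign_prodCongrLeft]
    simp
  rw [← h1]
  refine Equiv.Perm.sign_eq_sign_of_equiv _ _ (Equiv.boolProdEquivSum (Fin m)).symm ?_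
  rintro (i | i) <;> simp

theorem swapped {U : Type u} [Ring U] {m : ℕ} (W : List (U ⊕ (Fin m ⊕ Fin m)))
    (v : Fin m ⊕ Fin m → U) :
    ∑ σ : Equiv.Perm (Fin m ⊕ Fin m), (∏ l, (- chi σ l)) •
      ((Equiv.Perm.sign σ : ℤ) • ev W (v ∘ σ)) = BB W (v ∘ Sum.swap) := by
  unfold BB
  rw [← Equiv.sum_comp (Equiv.mulLeft (Equiv.sumComm (Fin m) (Fin m) :
    Equiv.Perm (Fin m ⊕ Fin m))) (fun σ : Equiv.Perm (Fin m ⊕ Fin m) => (∏ l, (- chi σ l)) •
      ((Equiv.Perm.sign σ : ℤ) • ev W (v ∘ σ)))]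
  refine Finset.sum_congr rfl fun τ _ => ?_
  have e1 : (Equiv.mulLeft (Equiv.sumComm (Fin m) (Fin m) : Equiv.Perm (Fin m ⊕ Fin m))) τ =
      (Equiv.sumComm (Fin m) (Fin m) : Equiv.Perm (Fin m ⊕ Fin m)) * τ := rfl
  rw [e1]
  have e2 : ∀ l, chi ((Equiv.sumComm (Fin m) (Fin m) : Equiv.Perm (Fin m ⊕ Fin m)) * τ) l =
      1 - chi τ l := by
    intro l
    unfold chi
    rw [Equiv.Perm.mul_apply]
    rcases τ (Sum.inr l) with a | a <;> simp
  simp_rw [e2]
  have e3 : v ∘ ((Equiv.sumComm (Fin m) (Fin m) : Equiv.Perm (Fin m ⊕ Fin m)) * τ :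
      Equiv.Perm (Fin m ⊕ Fin m)) = (v ∘ Sum.swap) ∘ τ := rfl
  rw [e3, Equiv.Perm.sign_mul, sign_comm, Finset.prod_neg, Finset.card_univ, Fintype.card_fin]
  push_cast
  rw [smul_smul, smul_smul]
  congr 1
  have h : ((-1 : ℤ) ^ m) * (-1) ^ m = 1 := by
    rw [← mul_pow]; simp
  calc (-1 : ℤ) ^ m * (∏ l, (1 - chi τ l)) * ((-1) ^ m * (Equiv.Perm.sign τ : ℤ)) =
      ((-1 : ℤ) ^ m * (-1) ^ m) * ((∏ l, (1 - chi τ l)) * (Equiv.Perm.sign τ : ℤ)) := by ring
    _ = _ := by rw [h, one_mul]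

theorem BB_eq {U : Type u} [Ring U] {m : ℕ} (w w' : List (U ⊕ Fin m)) (c : U) (x y : Fin m → U) :
    BB (big2 w w' c) (Sum.elim x y) = alt w x * c * alt w' y := by
  classical
  have h1 : alt w x * c * alt w' y = ∑ p : Equiv.Perm (Fin m) × Equiv.Perm (Fin m),
      ((Equiv.Perm.sign p.1 : ℤ) * (Equiv.Perm.sign p.2 : ℤ)) •
        (ev w (x ∘ p.1) * c * ev w' (y ∘ p.2)) := by
    rw [Fintype.sum_prod_type]
    unfold alt
    rw [Finset.sum_mul, Finset.sum_mul]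
    refine Finset.sum_congr rfl fun σ _ => ?_
    rw [Finset.mul_sum]
    refine Finset.sum_congr rfl fun τ _ => ?_
    simp only [smul_mul_assoc, mul_smul_comm]
    rw [smul_smul, mul_comm]
  rw [h1]
  unfold BB
  symm
  refine Fintype.sum_of_injective (Equiv.Perm.sumCongrHom (Fin m) (Fin m))
    Equiv.Perm.sumCongrHom_injective _ _ ?_ ?_
  · intro σ hσ
    have h2 : ∃ l, chi σ l = 1 := by
      by_contra hc
      push Not at hc
      apply hσ
      have h3 : Set.MapsTo σ (Set.range Sum.inr) (Set.range Sum.inr) := by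
        rintro _ ⟨l, rfl⟩
        have h4 := hc l
        unfold chi at h4
        rcases h5 : σ (Sum.inr l) with a | a
        · rw [h5] at h4
          simp at h4
        · exact ⟨a, rfl⟩
      exact Equiv.Perm.mem_sumCongrHom_range_of_perm_mapsTo_inl
        ((Equiv.Perm.perm_mapsTo_inl_iff_mapsTo_inr σ).2 h3)
    obtain ⟨l, hl⟩ := h2
    rw [Finset.prod_eq_zero (Finset.mem_univ l) (by rw [hl, sub_self]), zero_smul]
  · rintro ⟨σ, τ⟩
    have e1 : Equiv.Perm.sumCongrHom (Fin m) (Fin m) (σ, τ) = Equiv.Perm.sumCongr σ τ := rfl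
    rw [e1]
    have e2 : ∏ l, (1 - chi (Equiv.Perm.sumCongr σ τ) l) = 1 := by
      refine Finset.prod_eq_one fun l _ => ?_
      unfold chi
      simp
    rw [e2, one_smul, Equiv.Perm.sign_sumCongr, big2_ev]
    push_cast
    rfl

theorem t_EX (hALF : S_ALF.{u}) (hCOS : S_COS.{u}) : S_EX.{u} := by
  intro U _ I _ m hcap w w' hw hw' c x y hx hy
  rw [← BB_eq, incl hALF hCOS I hcap _ (big2_once hw hw' c) _ (by rintro (i | i); exact hx i; exact hy i),
    swapped]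
  have e : (Sum.elim x y) ∘ Sum.swap = Sum.elim y x := by
    funext i
    rcases i with i | i <;> rfl
  rw [e, BB_eq]

end Pool.Agent.Run7.h136.LV
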