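import Pool.Agent.Run7.h432.LV.Stm3
import Pool.Agent.Run7.h633.LV.FIN

/-!
# Project LV (helper432), job RED: reduction to nil ideals
-/

set_option autoImplicit false

namespace Pool.Agent.Run7.h136.LV

open Run7.h432.LV Run7.h633.LV

universe u

theorem kill2 {U : Type u} [Ring U] (hNIC : S_NIC.{u}) (I : Ideal U) [I.IsTwoSided] (m : ℕ)
    (hcap : Cap I (m + 1)) (hP : Perfect I) (s : U) (hs : s ∈ I) (z : U) (hz : z ∈ I) :
    ∀ d ∈ DD I m, ∀ d' ∈ DD I m, ∀ c : U, d * c * d' * (s ^ m * z) = 0 := by
  intro d hd d' hd'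
  have h1 : ∀ (w : List (U ⊕ Fin m)) (x : Fin m → U), Once w → (∀ i, x i ∈ I) →
      ∀ c : U, alt w x * c * d' * (s ^ m * z) = 0 := by
    intro w x hw hx
    refine Submodule.span_induction (p := fun d' _ => ∀ c : U,
      alt w x * c * d' * (s ^ m * z) = 0) ?_ ?_ ?_ ?_ hd'
    · rintro _ ⟨w', y, hw', hy, rfl⟩ c
      exact hNIC U I m hcap hP w w' hw hw' x y hx hy c s hs z hz
    · intro c; simp
    · intro y y' _ _ h h' c
      rw [mul_add, add_mul, h, h', add_zero]
    · intro r y _ h c
      have := h (c * r)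
      simpa only [smul_eq_mul, mul_assoc] using this
  refine Submodule.span_induction (p := fun d _ => ∀ c : U,
      d * c * d' * (s ^ m * z) = 0) ?_ ?_ ?_ ?_ hd
  · rintro _ ⟨w, x, hw, hx, rfl⟩ c
    exact h1 w x hw hx c
  · intro c; simp
  · intro y y' _ _ h h' c
    rw [add_mul, add_mul, add_mul, h, h', add_zero]
  · intro r y _ h c
    rw [smul_eq_mul, mul_assoc r, mul_assoc r, mul_assoc r, h, mul_zero]

theorem t_RED (hNIC : S_NIC.{u}) : S_RED.{u} := by
  intro n
  induction n with
  | zero =>
    intro U _ I _ hcap _ hI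
    exfalso
    apply hI
    have h1 : (1 : U) = 0 := by
      have h := hcap [] ⟨by simp, fun i => i.elim0⟩ (fun _ => 0) (fun i => i.elim0)
      simpa [alt, ev] using h
    rw [eq_bot_iff]
    intro x _
    rw [Ideal.mem_bot, ← mul_one x, h1, mul_zero]
  | succ m ih =>
    intro U _ I _ hcap hP hI
    have hsq := sq_of_perfect I hP
    have hsA : ∀ s ∈ I, s ^ m ∈ AA I (DD I m) := by
      intro s hs d hd d' hd' z hz
      have := kill2 hNIC I m hcap hP s hs z hz d hd d' hd' 1
      rw [mul_one, ← mul_assoc] at this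
      exact this
    by_cases hIA : I ≤ AA I (DD I m)
    · have hID : ¬ I ≤ DD I m := by
        intro hID
        apply hI
        apply zero_of_four I hsq
        intro p hp q hq r hr s hs
        exact hIA hr p (hID hp) q (hID hq) s hs
      have := map_two I (DD I m)
      have hI' : I.map (Ideal.Quotient.mk (DD I m)) ≠ ⊥ := by
        intro hI'
        apply hID
        intro x hx
        have h1 : Ideal.Quotient.mk (DD I m) x ∈ I.map (Ideal.Quotient.mk (DD I m)) :=
          Ideal.mem_map_of_mem _ hx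
        rw [hI', Ideal.mem_bot, Ideal.Quotient.eq_zero_iff_mem] at h1
        exact h1
      obtain ⟨A, hA, hIA', hs⟩ := ih (U ⧸ DD I m) (I.map (Ideal.Quotient.mk (DD I m)))
        (cap_quot I m (DD I m) (fun w x hw hx => Ideal.subset_span ⟨w, x, hw, hx, rfl⟩))
        (perf_quot I (DD I m) hP) hI'
      refine ⟨A.comap (Ideal.Quotient.mk (DD I m)), ?_, ?_, ?_⟩
      · refine ⟨fun {a} b ha => ?_⟩
        rw [Ideal.mem_comap] at ha ⊢
        rw [map_mul]
        exact Ideal.IsTwoSided.mul_mem_of_left _ ha
      · intro h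
        exact hIA' (Ideal.map_le_iff_le_comap.2 h)
      · intro s hsI
        rw [Ideal.mem_comap, map_pow, Nat.add_sub_cancel]
        have h1 := hs (Ideal.Quotient.mk (DD I m) s) (Ideal.mem_map_of_mem _ hsI)
        rcases Nat.eq_zero_or_pos m with h0 | h0
        · subst h0
          simpa using h1
        · have e : m = (m - 1) + 1 := by omega
          have h2 : (Ideal.Quotient.mk (DD I m) s) ^ m =
              Ideal.Quotient.mk (DD I m) s * (Ideal.Quotient.mk (DD I m) s) ^ (m - 1) := by
            rw [← pow_succ']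
            congr 1
          rw [h2]
          exact A.mul_mem_left _ h1
    · exact ⟨AA I (DD I m), inferInstance, hIA, hsA⟩

end Pool.Agent.Run7.h136.LV
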