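import Pool.Agent.Run7.h432.LV.Stm

/-!
# Project LV (helper432), piece SYM
-/

set_option autoImplicit false

namespace Pool.Agent.Run7.h136.LV

open Run7.h432.LV Function

universe u

theorem update_smul {U : Type u} [Ring U] {ι : Type} [DecidableEq ι] (i : ι) (s : U) (x : ι → U) :
    (fun k => (if k = i then s else 1) * x k) = update x i (s * x i) := by
  funext k
  by_cases h : k = i
  · subst h
    simp
  · simp [h]

theorem upd {U : Type u} {ι : Type} [DecidableEq ι] (x : ι → U) (σ : Equiv.Perm ι) (i : ι) (v : U) :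
    update x (σ i) v ∘ σ = update (x ∘ σ) i v := by
  have h := Function.update_comp_equiv x σ (σ i) v
  rwa [Equiv.symm_apply_apply] at h

theorem del_mem (hVM : S_VM.{u}) {U : Type u} [Ring U] {ι : Type} [DecidableEq ι]
    {F : (ι → U) → U} (hF : F ∈ V U ι) {m : ℕ} (a : Fin m → ι) (s : U) : del a s F ∈ V U ι := by
  have e : del a s F = ∑ i, fun x : ι → U => F (update x (a i) (s * x (a i))) := by
    funext x
    simp [del, Finset.sum_apply]
  rw [e]
  refine AddSubgroup.sum_mem _ fun i _ => ?_
  have h := hVM U ι F hF (fun k => if k = a i then s else 1)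
  have e2 : (fun x : ι → U => F fun k => (if k = a i then s else 1) * x k) =
      fun x : ι → U => F (update x (a i) (s * x (a i))) := by
    funext x
    rw [update_smul]
  rw [← e2]
  exact h

theorem del_alt {U : Type u} [Ring U] {ι : Type} [DecidableEq ι] {F : (ι → U) → U} {m : ℕ}
    {a : Fin m → ι} (ha : Injective a) (hA : AltB F a) (s : U) : AltB (del a s F) a := by
  intro p q hpq x
  unfold del
  rw [← Finset.sum_neg_distrib, ← Equiv.sum_comp (Equiv.swap p q)]
  refine Finset.sum_congr rfl fun i _ => ?_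
  have h1 : Equiv.swap (a p) (a q) (a (Equiv.swap p q i)) = a i := by
    rw [ha.swap_apply]
    congr 1
    exact Equiv.swap_apply_self p q i
  have h2 := upd x (Equiv.swap (a p) (a q)) (a (Equiv.swap p q i))
    (s * x (a i))
  rw [h1] at h2
  have h3 : (x ∘ ⇑(Equiv.swap (a p) (a q))) (a (Equiv.swap p q i)) = x (a i) := by
    rw [Function.comp_apply, h1]
  rw [h3, ← h2]
  exact hA p q hpq _

theorem t_SYM (hSTAR : S_STAR.{u}) (hVM : S_VM.{u}) : S_SYM.{u} := by
  intro U _ I _ m hInv hCap ι _ F hF a b ha hb hab hA hB s x hxa hxb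
  have hI : ∀ y ∈ I, s * y ∈ I := fun y hy => I.mul_mem_left s hy
  have hφ := del_mem hVM hF a s
  have hφA := del_alt ha hA s
  have hbn : ∀ j, b j ∉ Set.range a := by
    rintro j ⟨i, hi⟩
    exact hab i j hi
  have han : ∀ i, a i ∉ Set.range b := by
    rintro i ⟨j, hj⟩
    exact hab i j hj.symm
  -- the identity for one `j`
  have key : ∀ j, F (update x (b j) (s * x (b j))) =
      ∑ k, F (update x (a k) (s * x (a k)) ∘ Equiv.swap (a k) (b j)) := by
    intro j
    obtain ⟨A, hAd⟩ : ∃ A : Fin m → Fin m → U, A = fun i k =>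
      F (update (x ∘ Equiv.swap (a i) (b j)) (a k)
        (s * (x ∘ Equiv.swap (a i) (b j)) (a k))) := ⟨_, rfl⟩
    obtain ⟨B, hBd⟩ : ∃ B : Fin m → Fin m → U, B = fun k i =>
      F (update x (a k) (s * x (a k)) ∘ Equiv.swap (a i) (b j)) := ⟨_, rfl⟩
    -- (1)
    have e1 : del a s F x = ∑ i, ∑ k, A i k := by
      rw [hSTAR U I m hInv hCap ι (del a s F) hφ a ha hφA (b j) (hbn j) x hxa (hxb j), hAd]
      rfl
    -- (2)
    have e2 : F (update x (b j) (s * x (b j))) = ∑ i, A i i := by
      rw [hSTAR U I m hInv hCap ι F hF a ha hA (b j) (hbn j) (update x (b j) (s * x (b j)))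
        (fun i => by rw [update_of_ne (hab i j)]; exact hxa i)
        (by rw [update_self]; exact hI _ (hxb j)), hAd]
      refine Finset.sum_congr rfl fun i _ => ?_
      have h2 := upd x (Equiv.swap (a i) (b j)) (a i) (s * x (b j))
      rw [Equiv.swap_apply_left] at h2
      rw [h2]
      simp only [Function.comp_apply, Equiv.swap_apply_left]
    -- (3)
    have e3 : del a s F x = ∑ k, ∑ i, B k i := by
      unfold del
      refine Finset.sum_congr rfl fun k _ => ?_
      rw [hSTAR U I m hInv hCap ι F hF a ha hA (b j) (hbn j) (update x (a k) (s * x (a k)))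
        (fun i => by
          by_cases h : a i = a k
          · rw [h, update_self]
            exact hI _ (hxa k)
          · rw [update_of_ne h]
            exact hxa i)
        (by rw [update_of_ne (fun h => hab k j h.symm)]; exact hxb j), hBd]
    have e4 : ∀ i k, k ≠ i → A i k = B k i := by
      intro i k hki
      rw [hAd, hBd]
      simp only
      have h1 : Equiv.swap (a i) (b j) (a k) = a k :=
        Equiv.swap_apply_of_ne_of_ne (fun h => hki (ha h)) (hab k j)
      have h2 := upd x (Equiv.swap (a i) (b j)) (a k) (s * x (a k))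
      rw [h1] at h2
      rw [h2]
      simp only [Function.comp_apply, h1]
    have e5 : ∀ i, ∑ k, (A i k - B k i) = A i i - B i i := by
      intro i
      refine Finset.sum_eq_single i (fun k _ hk => ?_) (fun h => absurd (Finset.mem_univ i) h)
      rw [e4 i k hk, sub_self]
    have e6 : ∑ i, ∑ k, A i k - ∑ i, ∑ k, B k i = ∑ i, A i i - ∑ i, B i i := by
      rw [← Finset.sum_sub_distrib, ← Finset.sum_sub_distrib]
      refine Finset.sum_congr rfl fun i _ => ?_
      rw [← Finset.sum_sub_distrib]
      exact e5 i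
    have e7 : ∑ i, ∑ k, B k i = ∑ k, ∑ i, B k i := Finset.sum_comm
    rw [e7, ← e1, ← e3, sub_self, ← e2] at e6
    have e8 := sub_eq_zero.1 e6.symm
    rw [e8, hBd]
  -- the sum over `j`
  have h1 : del b s F x = ∑ j, F (update x (b j) (s * x (b j))) := rfl
  rw [h1, Finset.sum_congr rfl fun j _ => key j, Finset.sum_comm]
  unfold del
  refine Finset.sum_congr rfl fun k _ => ?_
  rw [hSTAR U I m hInv hCap ι F hF b hb hB (a k) (han k) (update x (a k) (s * x (a k)))
    (fun j => by rw [update_of_ne (fun h => hab k j h.symm)]; exact hxb j)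
    (by rw [update_self]; exact hI _ (hxa k))]
  refine Finset.sum_congr rfl fun j _ => ?_
  rw [Equiv.swap_comm]

end Pool.Agent.Run7.h136.LV
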